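import Pool.Agent.helper36.MP.SpecZ

/-!
# Project mp: FB, Theorem B
-/

set_option autoImplicit false

open Complex Metric Set Filter Topology MeasureTheory

noncomputable section

namespace MPS

open Pool.Agent.helper16.Multibrot

theorem FB_diffIter (n k : ℕ) (c : ℂ) : Differentiable ℂ ((fc n c)^[k]) := by
  have h1 : Differentiable ℂ (fc n c) := by
    unfold fc
    fun_prop
  exact h1.iterate k

theorem FB_mlt_zero (n : ℕ) (c z : ℂ) : mlt n 0 c z = 1 := by
  unfold mlt
  rw [Function.iterate_zero]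
  exact deriv_id z

theorem FB_mlt_succ (n k : ℕ) (c z : ℂ) :
    mlt n (k + 1) c z = n * ((fc n c)^[k] z) ^ (n - 1) * mlt n k c z := by
  unfold mlt
  rw [Function.iterate_succ']
  have h1 : HasDerivAt (fc n c) (n * ((fc n c)^[k] z) ^ (n - 1)) ((fc n c)^[k] z) := by
    unfold fc
    exact (hasDerivAt_pow n _).add_const c
  have h2 : HasDerivAt ((fc n c)^[k]) (deriv ((fc n c)^[k]) z) z :=
    (FB_diffIter n k c z).hasDerivAt
  exact (h1.comp z h2).deriv

theorem FB_iterDiff (n k : ℕ) {U : Set ℂ} {z : ℂ → ℂ} (hz : DifferentiableOn ℂ z U) :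
    DifferentiableOn ℂ (fun c' => (fc n c')^[k] (z c')) U := by
  induction k with
  | zero => simpa using hz
  | succ k ih =>
    have h1 : (fun c' => (fc n c')^[k + 1] (z c')) = fun c' => ((fc n c')^[k] (z c')) ^ n + c' := by
      funext c'
      rw [Function.iterate_succ_apply']
      rfl
    rw [h1]
    exact (ih.pow n).add differentiableOn_id

theorem FB_mltDiff (n k : ℕ) {U : Set ℂ} {z : ℂ → ℂ} (hz : DifferentiableOn ℂ z U) :
    DifferentiableOn ℂ (fun c' => mlt n k c' (z c')) U := by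
  induction k with
  | zero =>
    simp only [FB_mlt_zero]
    exact differentiableOn_const _
  | succ k ih =>
    simp only [FB_mlt_succ]
    exact (((FB_iterDiff n k hz).pow (n - 1)).const_mul (n : ℂ)).mul ih

theorem FB (hFA : FA_stmt) (hZN : ZN_stmt) (hZC : ZC_stmt) (hZBC : ZBC_stmt) : FB_stmt := by
  intro n hn d hd
  obtain ⟨ε', hε', hFA'⟩ := hFA n hn d hd
  refine ⟨ε' / 3, by positivity, ?_⟩
  intro c r hr hr1 hdis k z hk hmin hsep
  have hrep := hZN n c r hn hdis
  obtain ⟨zf, hzf, hzc, hper⟩ := hZC n k c r hn hk hr (fun c' hc' z' hz' => hrep c' hc' k z' hk hz')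
    z hmin
  have hgt : ∀ c' ∈ ball c r, 1 < ‖mlt n k c' (zf c')‖ := by
    intro c' hc'
    refine hrep c' hc' k (zf c') hk ?_
    have h1 := Function.iterate_minimalPeriod (f := fc n c') (x := zf c')
    rwa [hper c' hc'] at h1
  have hc : c ∈ ball c r := mem_ball_self hr
  have h1 := hFA' k (ball c r) zf hk isOpen_ball hzf hper c hc (hgt c hc) (by rwa [hzc])
  have h2 := hZBC (fun c' => mlt n k c' (zf c')) c r hr (FB_mltDiff n k hzf) hgt
  simp only [hzc] at h1 h2
  have hL : 0 < Real.log ‖mlt n k c z‖ := by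
    have := hgt c hc
    rw [hzc] at this
    exact Real.log_pos this
  have h3 : Real.log ‖mlt n k c z‖ ≤ Real.log ‖mlt n k c z‖ / r := by
    rw [le_div_iff₀ hr]
    nlinarith
  have h4 : ε' ≤ 3 * (Real.log ‖mlt n k c z‖ / r) := by
    have h5 : 2 * Real.log ‖mlt n k c z‖ / r = 2 * (Real.log ‖mlt n k c z‖ / r) := by ring
    rw [h5] at h2
    linarith
  have h6 : ε' * r ≤ 3 * Real.log ‖mlt n k c z‖ := by
    have h7 := mul_le_mul_of_nonneg_right h4 hr.le
    have h8 : 3 * (Real.log ‖mlt n k c z‖ / r) * r = 3 * Real.log ‖mlt n k c z‖ := by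
      field_simp
    linarith
  linarith

end MPS
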