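import Pool.Agent.helper36.MP.SpecQ

/-!
# Project mp: EV2
-/

set_option autoImplicit false

open Complex Metric Set Filter Topology MeasureTheory

noncomputable section

namespace MPS

theorem EV2_anti {n : ℕ} {c : ℂ} {y ρ₁ : ℝ} {χ : ℂ → ℂ} {G1 : ℕ → ℂ → ℂ} {ps : ℕ} {T : ℕ → ℝ}
    {G : ℕ → ℂ → ℂ} {Q : ℕ} (h : Sys2 n c y ρ₁ χ G1 ps T G Q) {q q' : ℕ} (hqq : q ≤ q')
    (hq : q' ≤ Q) : T q' ≤ T q := by
  induction q', hqq using Nat.le_induction with
  | base => exact le_rfl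
  | succ m hm ih => exact (h.anti m (by omega)).trans (ih (by omega))

theorem EV2_eps {n k : ℕ} [NeZero k] {c : ℂ} {b g : ZMod k → ℂ} {ψ : ZMod k → ℂ → ℂ} {R ε : ℝ}
    (h : SU n k c b g ψ R ε) : 0 ≤ ε ∧
      2 * Real.pi * Real.log ‖rho n b‖ + 3 * ∫ z in ball (0 : ℂ) R, ‖er n c b g z‖ ≤ ε := by
  have h1 : 0 ≤ ∫ z in ball (0 : ℂ) R, ‖er n c b g z‖ := integral_nonneg fun z => norm_nonneg _
  have h2 : 0 ≤ Real.log ‖rho n b‖ := Real.log_nonneg h.rho1.le
  have h3 : 0 ≤ 2 * Real.pi * Real.log ‖rho n b‖ := by positivity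
  have h4 := h.hE
  constructor <;> linarith

theorem EV2_ofReal_sum {ι : Type} (s : Finset ι) (f : ι → ℝ) :
    ENNReal.ofReal (∑ i ∈ s, f i) ≤ ∑ i ∈ s, ENNReal.ofReal (f i) := by
  classical
  induction s using Finset.induction_on with
  | empty => simp
  | insert a s ha ih =>
    rw [Finset.sum_insert ha, Finset.sum_insert ha]
    exact ENNReal.ofReal_add_le.trans (add_le_add le_rfl ih)

/-- Measurability of the pulled back densities. -/
theorem EV2_meas (hMI : MI_stmt) {n k : ℕ} [NeZero k] {c : ℂ} {b g : ZMod k → ℂ} {G : ℂ → ℂ}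
    {Ω : Set ℂ} (hΩ : IsOpen Ω) (hG : DifferentiableOn ℂ G Ω) :
    AEMeasurable (fun w => ENNReal.ofReal (dens n c b g G w)) (volume.restrict Ω) := by
  obtain ⟨-, her, hDf, -⟩ := hMI.1 n k c b g
  have hGm : AEMeasurable G (volume.restrict Ω) :=
    (hG.continuousOn.aestronglyMeasurable hΩ.measurableSet).aemeasurable
  have h1 : AEMeasurable (fun w => Df n c b g (G w)) (volume.restrict Ω) :=
    hDf.comp_aemeasurable hGm
  have h2 : AEMeasurable (fun w => er n c b g (G w)) (volume.restrict Ω) :=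
    her.comp_aemeasurable hGm
  have h3 : Measurable (deriv G) := measurable_deriv G
  unfold dens
  exact ((h1.add (h2.norm.const_mul 2)).mul (h3.norm.pow_const 2).aemeasurable).ennreal_ofReal

theorem EV2 (hEV2A : EV2A_stmt) (hEVT : EVT_stmt) (hLEI : LEI_stmt) (hLEA : LEA_stmt)
    (hLV : LV_stmt) (hMA : MA_stmt) (hMI : MI_stmt) (hP2A : P2A_stmt) : EV2_stmt := by
  intro n k _ c b g ψ R ε y ρ₁ χ G1 ps T G Q H hQk hε r wc hr hrT hdis hwc hGc
  by_contra hcon
  rw [not_lt] at hcon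
  have su := H.su2.su
  have hρ0 : 0 < ρ₁ := H.su2.r0
  obtain ⟨hε0, hε3⟩ := EV2_eps su
  obtain ⟨w₁, N, g', hw₁, hNo, hw₁N, hNb, hLS, hsum⟩ := hEV2A n k c b g ψ R ε y ρ₁ χ G1 ps T G Q H
    hQk r wc hr hrT hdis (by linarith) hGc
  obtain ⟨-, hinj, hmap, hlev, -, hmult, -⟩ := hP2A n k c b g ψ R ε y ρ₁ χ G1 ps T G Q H
  set x : ℂ := (y : ℂ) * I with hx
  have hLSQ := hlev Q le_rfl
  have hbr : ball x r ⊆ ball x (T Q) := ball_subset_ball hrT
  have hbq : ∀ q ≤ Q, ball x r ⊆ ball x (T q) := fun q hq =>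
    hbr.trans (ball_subset_ball (EV2_anti H.sys hq le_rfl))
  set d : ℝ := ρ₁ / 32 with hd
  have hd0 : 0 < d := by positivity
  have hbw : ball wc d ⊆ ball x r := by
    refine ball_subset_ball' ?_
    rw [dist_eq_norm]
    linarith
  have hbwT : ball wc d ⊆ ball x (T Q) := hbw.trans hbr
  have hwcd : wc ∈ ball wc d := mem_ball_self hd0
  -- the branch sums
  obtain ⟨-, hLV2, -, -⟩ := hLV n k c b g G (ball x (T Q)) Q su.hn su.cyc isOpen_ball hLSQ
  have hMA1 := (hMA n k c b g R su.hn su.cyc su.hc su.hR su.rho1 (Q + 1) 2 (fun _ => ball x r) G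
    (fun q hq => ⟨isOpen_ball, (hLSQ.diff q (by omega)).mono hbr,
      (hinj q (by omega)).mono (hbq q (by omega)),
      (hmap q (by omega)).mono_left (hbq q (by omega))⟩)
    (fun z F hF => hmult r hrT hdis z F fun q hq => ⟨by have := (hF q hq).1; omega, (hF q hq).2⟩)).1
  have hbranch : ∫⁻ w in ball wc d, ENNReal.ofReal (∑ j ∈ Finset.range n,
      (‖brv n b g (G Q) w (om n ^ j * rt n (G Q w - c))‖ -
        (brv n b g (G Q) w (om n ^ j * rt n (G Q w - c))).re)) ≤ ENNReal.ofReal (2 * ε) := by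
    have h1 : ∫⁻ w in ball wc d, ENNReal.ofReal (∑ j ∈ Finset.range n,
        (‖brv n b g (G Q) w (om n ^ j * rt n (G Q w - c))‖ -
          (brv n b g (G Q) w (om n ^ j * rt n (G Q w - c))).re)) ≤
        ∫⁻ w in ball wc d, ∑ q ∈ Finset.range (Q + 1), ENNReal.ofReal (dens n c b g (G q) w) := by
      refine lintegral_mono_ae ?_
      rw [ae_restrict_iff' measurableSet_ball]
      have hne : ∀ᵐ w : ℂ, w ≠ wc := by
        rw [ae_iff]
        simp
      filter_upwards [hne] with w hw hwb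
      have hcw : G Q w ≠ c := by
        intro h0
        refine hw (hinj Q le_rfl (hbwT hwb) (hbwT hwcd) ?_)
        rw [h0, hGc]
      refine (ENNReal.ofReal_le_ofReal (hLV2 Q le_rfl w (hbwT hwb) hcw)).trans ?_
      exact EV2_ofReal_sum _ _
    refine h1.trans ?_
    rw [lintegral_finsetSum' _ fun q hq => EV2_meas hMI isOpen_ball
      ((hLSQ.diff q (by have := Finset.mem_range.1 hq; omega)).mono hbwT)]
    calc ∑ q ∈ Finset.range (Q + 1), ∫⁻ w in ball wc d, ENNReal.ofReal (dens n c b g (G q) w)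
        ≤ ∑ q ∈ Finset.range (Q + 1), ∫⁻ w in ball x r, ENNReal.ofReal (dens n c b g (G q) w) :=
          Finset.sum_le_sum fun q _ => lintegral_mono_set hbw
      _ ≤ ((2 : ℕ) : ENNReal) * ENNReal.ofReal (2 * Real.pi * Real.log ‖rho n b‖ +
            3 * ∫ z in ball (0 : ℂ) R, ‖er n c b g z‖) := hMA1
      _ ≤ ((2 : ℕ) : ENNReal) * ENNReal.ofReal ε := by gcongr
      _ = ENNReal.ofReal (2 * ε) := by
          rw [ENNReal.ofReal_mul (by norm_num)]
          norm_num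
  -- the point `w₁`
  have hup : Function.update G (Q + 1) g' Q = G Q := Function.update_of_ne (by omega) _ _
  have hup1 : Function.update G (Q + 1) g' (Q + 1) = g' := Function.update_self _ _ _
  have hy₁ : g' w₁ ^ n + c = G Q w₁ := by
    have := (hLS.rel Q (by omega) w₁ hw₁N).1
    rwa [hup, hup1] at this
  obtain ⟨hLEA1, -⟩ := hLEA n k c b g G (ball x (T Q)) Q su.hn su.cyc isOpen_ball hLSQ
  have hevt := hEVT n k c b g (G Q) wc w₁ (g' w₁) d (2 * ε) su.hn su.cyc hd0 (by linarith)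
    ((hLSQ.diff Q le_rfl).mono hbwT) ((hinj Q le_rfl).mono hbwT)
    (fun w hw j => hLEA1 Q le_rfl w (hbwT hw) j) hGc (by rw [hw₁, hd]; ring) hy₁ hbranch
  obtain ⟨hb0, -, -, hbrv, -⟩ := hLEI n k c b g (Function.update G (Q + 1) g') N (Q + 1) su.hn
    su.cyc hNo hLS
  have e0 := hbrv Q (by omega) w₁ hw₁N 0
  have e1 := hbrv Q (by omega) w₁ hw₁N 1
  rw [hup, hup1, pow_zero, one_mul, hb0] at e0
  rw [hup, hup1, pow_one] at e1
  rw [e0, e1] at hevt
  -- the level functions at `w₁`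
  set S : ℝ := ∑ q ∈ Finset.Icc 1 (Q + 1), lev n c b g (Function.update G (Q + 1) g') q w₁ with hS
  have hlevnn : ∀ q, 0 ≤ lev n c b g (Function.update G (Q + 1) g') q w₁ := fun q =>
    add_nonneg (Finset.sum_nonneg fun _ _ => norm_nonneg _) (norm_nonneg _)
  have hbet : ‖bet n b g (Function.update G (Q + 1) g') (Q + 1) 1 w₁‖ ≤ S := by
    have h1 : lev n c b g (Function.update G (Q + 1) g') (Q + 1) w₁ ≤ S :=
      Finset.single_le_sum (f := fun q => lev n c b g (Function.update G (Q + 1) g') q w₁)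
        (fun q _ => hlevnn q) (Finset.mem_Icc.2 ⟨by omega, le_rfl⟩)
    refine le_trans ?_ h1
    have hn1 : 1 ∈ Finset.Ico 1 n := Finset.mem_Ico.2 ⟨le_rfl, su.hn⟩
    have h2 := Finset.single_le_sum
      (f := fun j => ‖bet n b g (Function.update G (Q + 1) g') (Q + 1) j w₁‖)
      (fun j _ => norm_nonneg _) hn1
    exact h2.trans (le_add_of_nonneg_right (norm_nonneg _))
  obtain ⟨-, -, -, hLV4⟩ := hLV n k c b g (Function.update G (Q + 1) g') N (Q + 1) su.hn su.cyc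
    hNo hLS
  have htau := hLV4 (Q + 1) le_rfl w₁ hw₁N
  have hq : ε / ρ₁ ^ 2 ≤ 1 / 4 ^ 200 := by
    rw [div_le_div_iff₀ (by positivity) (by positivity), one_mul]
    have := mul_le_mul_of_nonneg_right hε (by positivity : (0 : ℝ) ≤ 4 ^ 200)
    rwa [div_mul_cancel₀ _ (by positivity)] at this
  have hS1 : S ≤ 1 / 4 ^ 33 := by
    refine hsum.trans ?_
    rw [mul_div_assoc]
    calc (4 : ℝ) ^ 167 * (ε / ρ₁ ^ 2) ≤ 4 ^ 167 * (1 / 4 ^ 200) := by gcongr
      _ = 1 / 4 ^ 33 := by norm_num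
  have hd2 : 12 * (2 * ε) / d ^ 2 ≤ 1 / 4 ^ 100 := by
    have h1 : 12 * (2 * ε) / d ^ 2 = 24576 * (ε / ρ₁ ^ 2) := by
      rw [hd]
      field_simp
      ring
    rw [h1]
    calc (24576 : ℝ) * (ε / ρ₁ ^ 2) ≤ 24576 * (1 / 4 ^ 200) := by gcongr
      _ ≤ 1 / 4 ^ 100 := by norm_num
  have hlow : 1 - 1 / 4 ^ 33 ≤ ‖tau b g (Function.update G (Q + 1) g') (Q + 1) w₁‖ := by
    have h1 := norm_sub_norm_le (1 : ℂ) (1 - tau b g (Function.update G (Q + 1) g') (Q + 1) w₁)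
    rw [norm_one, sub_sub_cancel, norm_sub_rev] at h1
    linarith
  have hup2 : ‖tau b g (Function.update G (Q + 1) g') (Q + 1) w₁‖ ≤
      4 ^ 20 * (1 / 4 ^ 33 + 1 / 4 ^ 100) := by
    refine hevt.trans ?_
    have h1 : ‖bet n b g (Function.update G (Q + 1) g') (Q + 1) 1 w₁‖ + 12 * (2 * ε) / d ^ 2 ≤
        1 / 4 ^ 33 + 1 / 4 ^ 100 := by linarith
    gcongr
  have hfin : (4 : ℝ) ^ 20 * (1 / 4 ^ 33 + 1 / 4 ^ 100) < 1 - 1 / 4 ^ 33 := by norm_num
  linarith

end MPS
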