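import Pool.Agent.helper36.MP.SpecN

/-!
# Project mp: NL0, local uniqueness of natural maps
-/

set_option autoImplicit false

open Complex Metric Set Filter Topology MeasureTheory

noncomputable section

namespace MPS

theorem NL0_BB_diff {k : ℕ} [NeZero k] (b g : ZMod k → ℂ) {z : ℂ} (hz : ∀ j, z ≠ b j) :
    DifferentiableAt ℂ (BB b g) z := by
  unfold BB
  refine DifferentiableAt.fun_sum fun i _ => ?_
  have h1 : z - b i ≠ 0 := sub_ne_zero.2 (hz i)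
  refine DifferentiableAt.add ?_ ?_
  · exact (differentiableAt_const _).div ((differentiableAt_id.sub_const _).pow 2) (pow_ne_zero 2 h1)
  · exact (differentiableAt_const _).div (differentiableAt_id.sub_const _) h1

/-- A holomorphic square root of `B` with a primitive, injective near a regular point. -/
theorem NL0_prim {k : ℕ} [NeZero k] (b g : ZMod k → ℂ) {z₀ : ℂ} (hz : ∀ j, z₀ ≠ b j)
    (hB : BB b g z₀ ≠ 0) : ∃ r > (0 : ℝ), ∃ σ F : ℂ → ℂ, (∀ z ∈ ball z₀ r, HasDerivAt F (σ z) z) ∧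
      (∀ z ∈ ball z₀ r, σ z ^ 2 = BB b g z) ∧ (∀ z ∈ ball z₀ r, σ z ≠ 0) ∧
      (∀ z ∈ ball z₀ r, ∀ j, z ≠ b j) ∧ ContinuousOn σ (ball z₀ r) ∧ InjOn F (ball z₀ r) := by
  obtain ⟨σ₀, hσ₀⟩ : ∃ σ₀ : ℂ, σ₀ ^ 2 = BB b g z₀ := by
    obtain ⟨x, hx⟩ := IsAlgClosed.exists_pow_nat_eq (BB b g z₀) (n := 2) (by norm_num)
    exact ⟨x, hx⟩
  have hσ₀0 : σ₀ ≠ 0 := by
    rintro rfl
    rw [zero_pow two_ne_zero] at hσ₀
    exact hB hσ₀.symm
  have hav : ∀ᶠ z in 𝓝 z₀, ∀ j, z ≠ b j := by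
    rw [eventually_all]
    intro j
    exact isOpen_ne.mem_nhds (hz j)
  have hcont : ContinuousAt (fun z => BB b g z / BB b g z₀) z₀ :=
    (NL0_BB_diff b g hz).continuousAt.div_const _
  have hsl : ∀ᶠ z in 𝓝 z₀, BB b g z / BB b g z₀ ∈ slitPlane := by
    have h1 : BB b g z₀ / BB b g z₀ ∈ slitPlane := by
      rw [div_self hB]
      exact one_mem_slitPlane
    exact hcont.eventually_mem (isOpen_slitPlane.mem_nhds h1)
  obtain ⟨r₀, hr₀, hr₀'⟩ := Metric.eventually_nhds_iff_ball.1 (hav.and hsl)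
  set σ : ℂ → ℂ := fun z => σ₀ * (BB b g z / BB b g z₀) ^ ((1 : ℂ) / 2) with hσdef
  have hσsq : ∀ z ∈ ball z₀ r₀, σ z ^ 2 = BB b g z := by
    intro z hz'
    have h1 : ((BB b g z / BB b g z₀) ^ ((1 : ℂ) / 2)) ^ 2 = BB b g z / BB b g z₀ := by
      rw [← Complex.cpow_nat_mul]
      norm_num
    simp only [hσdef]
    rw [mul_pow, h1, hσ₀]
    field_simp
  have hBne : ∀ z ∈ ball z₀ r₀, BB b g z ≠ 0 := by
    intro z hz' h0
    have := (hr₀' z hz').2
    rw [h0, zero_div] at this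
    exact zero_notMem_slitPlane this
  have hσne : ∀ z ∈ ball z₀ r₀, σ z ≠ 0 := by
    intro z hz' h0
    have := hσsq z hz'
    rw [h0, zero_pow two_ne_zero] at this
    exact hBne z hz' this.symm
  have hσdiff : DifferentiableOn ℂ σ (ball z₀ r₀) := by
    intro z hz'
    obtain ⟨h1, h2⟩ := hr₀' z hz'
    have h3 : DifferentiableAt ℂ (fun z => BB b g z / BB b g z₀) z :=
      (NL0_BB_diff b g h1).div_const _
    exact ((h3.cpow (differentiableAt_const _) h2).const_mul σ₀).differentiableWithinAt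
  obtain ⟨F, hF⟩ := hσdiff.isExactOn_ball
  have hz₀ : z₀ ∈ ball z₀ r₀ := mem_ball_self hr₀
  have hstrict : HasStrictDerivAt F (σ z₀) z₀ := by
    have h1 : AnalyticAt ℂ F z₀ := by
      have h2 : DifferentiableOn ℂ F (ball z₀ r₀) := fun z hz' =>
        (hF z hz').differentiableAt.differentiableWithinAt
      exact h2.analyticAt (ball_mem_nhds z₀ hr₀)
    have h2 := h1.hasStrictDerivAt
    rwa [(hF z₀ hz₀).deriv] at h2
  have hinj : ∃ r₁ > (0 : ℝ), InjOn F (ball z₀ r₁) := by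
    obtain ⟨r₁, hr₁, hr₁'⟩ := Metric.eventually_nhds_iff_ball.1
      (hstrict.eventually_left_inverse (hσne z₀ hz₀))
    refine ⟨r₁, hr₁, fun x hx y hy hxy => ?_⟩
    rw [← hr₁' x hx, ← hr₁' y hy, hxy]
  obtain ⟨r₁, hr₁, hr₁'⟩ := hinj
  have hs0 : ball z₀ (min r₀ r₁) ⊆ ball z₀ r₀ := ball_subset_ball (min_le_left _ _)
  have hs1 : ball z₀ (min r₀ r₁) ⊆ ball z₀ r₁ := ball_subset_ball (min_le_right _ _)
  exact ⟨min r₀ r₁, lt_min hr₀ hr₁, σ, F, fun z hz' => hF z (hs0 hz'), fun z hz' => hσsq z (hs0 hz'),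
    fun z hz' => hσne z (hs0 hz'), fun z hz' => (hr₀' z (hs0 hz')).1,
    hσdiff.continuousOn.mono hs0, hr₁'.mono hs1⟩

theorem NL0 : NL0_stmt := by
  intro k _ b g χ₁ χ₂ Ω₁ Ω₂ w₁ w₂ s hΩ₁ hΩ₂ h₁ h₂ hw₁ hw₂ hχ hs hd
  have hs0 : s ≠ 0 := by
    rcases hs with rfl | rfl <;> norm_num
  have hsn : ‖s‖ = 1 := by
    rcases hs with rfl | rfl <;> simp
  have hB : BB b g (χ₁ w₁) ≠ 0 := by
    intro h0
    have := h₁.eq w₁ hw₁
    rw [h0, mul_zero] at this
    exact zero_ne_one this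
  obtain ⟨r, hr, σ, F, hF, hσ2, hσ0, -, hσc, hinj⟩ := NL0_prim b g (h₁.av w₁ hw₁) hB
  -- the two functions
  have hd1 : ∀ h, w₁ + h ∈ Ω₁ → HasDerivAt (fun h => χ₁ (w₁ + h)) (deriv χ₁ (w₁ + h)) h := by
    intro h hh
    have h3 : HasDerivAt χ₁ (deriv χ₁ (w₁ + h)) (w₁ + h) :=
      (h₁.diff.differentiableAt (hΩ₁.mem_nhds hh)).hasDerivAt
    exact h3.comp_const_add w₁ h
  have hd2 : ∀ h, w₂ + s * h ∈ Ω₂ →
      HasDerivAt (fun h => χ₂ (w₂ + s * h)) (deriv χ₂ (w₂ + s * h) * s) h := by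
    intro h hh
    have h3 : HasDerivAt χ₂ (deriv χ₂ (w₂ + s * h)) (w₂ + s * h) :=
      (h₂.diff.differentiableAt (hΩ₂.mem_nhds hh)).hasDerivAt
    have h4 : HasDerivAt (fun h : ℂ => w₂ + s * h) s h := by
      simpa using ((hasDerivAt_id h).const_mul s).const_add w₂
    exact h3.comp h h4
  have hm1 : ∀ᶠ h in 𝓝 (0 : ℂ), w₁ + h ∈ Ω₁ := by
    have : ContinuousAt (fun h : ℂ => w₁ + h) 0 := by fun_prop
    exact this.eventually_mem (hΩ₁.mem_nhds (by simpa using hw₁))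
  have hm2 : ∀ᶠ h in 𝓝 (0 : ℂ), w₂ + s * h ∈ Ω₂ := by
    have : ContinuousAt (fun h : ℂ => w₂ + s * h) 0 := by fun_prop
    exact this.eventually_mem (hΩ₂.mem_nhds (by simpa using hw₂))
  have hb1 : ∀ᶠ h in 𝓝 (0 : ℂ), χ₁ (w₁ + h) ∈ ball (χ₁ w₁) r := by
    have h3 := (hd1 0 (by simpa using hw₁)).continuousAt
    exact h3.eventually_mem (by simpa using ball_mem_nhds (χ₁ w₁) hr)
  have hb2 : ∀ᶠ h in 𝓝 (0 : ℂ), χ₂ (w₂ + s * h) ∈ ball (χ₁ w₁) r := by
    have h3 := (hd2 0 (by simpa using hw₂)).continuousAt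
    refine h3.eventually_mem ?_
    have : χ₂ (w₂ + s * 0) = χ₁ w₁ := by simpa using hχ.symm
    rw [this]
    exact ball_mem_nhds (χ₁ w₁) hr
  obtain ⟨ε, hε, hall⟩ := Metric.eventually_nhds_iff_ball.1 ((hm1.and hm2).and (hb1.and hb2))
  refine ⟨ε, hε, ?_⟩
  have hc1 : ContinuousOn (fun h => deriv χ₁ (w₁ + h)) (ball 0 ε) := by
    have h3 : ContinuousOn (deriv χ₁) Ω₁ := (h₁.diff.deriv hΩ₁).continuousOn
    exact h3.comp (by fun_prop) fun h hh => (hall h hh).1.1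
  have hc2 : ContinuousOn (fun h => deriv χ₂ (w₂ + s * h)) (ball 0 ε) := by
    have h3 : ContinuousOn (deriv χ₂) Ω₂ := (h₂.diff.deriv hΩ₂).continuousOn
    exact h3.comp (by fun_prop) fun h hh => (hall h hh).1.2
  have hq1 : ContinuousOn (fun h => σ (χ₁ (w₁ + h)) * deriv χ₁ (w₁ + h)) (ball 0 ε) := by
    refine ContinuousOn.mul (hσc.comp ?_ fun h hh => (hall h hh).2.1) hc1
    intro h hh
    exact (hd1 h (hall h hh).1.1).continuousAt.continuousWithinAt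
  have hq2 : ContinuousOn (fun h => σ (χ₂ (w₂ + s * h)) * (deriv χ₂ (w₂ + s * h) * s))
      (ball 0 ε) := by
    refine ContinuousOn.mul (hσc.comp ?_ fun h hh => (hall h hh).2.2)
      (hc2.mul continuousOn_const)
    intro h hh
    exact (hd2 h (hall h hh).1.2).continuousAt.continuousWithinAt
  have hs2 : s ^ 2 = 1 := by
    rcases hs with rfl | rfl <;> norm_num
  have hq1s : ∀ h ∈ ball (0 : ℂ) ε, (σ (χ₁ (w₁ + h)) * deriv χ₁ (w₁ + h)) ^ 2 = 1 := by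
    intro h hh
    rw [mul_pow, hσ2 _ (hall h hh).2.1, mul_comm]
    exact h₁.eq _ (hall h hh).1.1
  have hq2s : ∀ h ∈ ball (0 : ℂ) ε,
      (σ (χ₂ (w₂ + s * h)) * (deriv χ₂ (w₂ + s * h) * s)) ^ 2 = 1 := by
    intro h hh
    rw [mul_pow, mul_pow, hσ2 _ (hall h hh).2.2, hs2, mul_one, mul_comm]
    exact h₂.eq _ (hall h hh).1.2
  have h0 : (0 : ℂ) ∈ ball (0 : ℂ) ε := mem_ball_self hε
  have hq : EqOn (fun h => σ (χ₁ (w₁ + h)) * deriv χ₁ (w₁ + h))
      (fun h => σ (χ₂ (w₂ + s * h)) * (deriv χ₂ (w₂ + s * h) * s)) (ball 0 ε) := by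
    have hpre : IsPreconnected (ball (0 : ℂ) ε) := (convex_ball _ _).isPreconnected
    have hne : ∀ {h : ℂ}, h ∈ ball (0 : ℂ) ε →
        (fun h => σ (χ₂ (w₂ + s * h)) * (deriv χ₂ (w₂ + s * h) * s)) h ≠ 0 := by
      intro h hh h3
      have h4 := hq2s h hh
      simp only at h3
      rw [h3] at h4
      norm_num at h4
    rcases hpre.eq_or_eq_neg_of_sq_eq hq1 hq2 (fun h hh => by
      simp only [Pi.pow_apply]
      rw [hq1s h hh, hq2s h hh]) hne with h3 | h3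
    · exact h3
    · exfalso
      have h4 := h3 h0
      have h5 := hq2s 0 h0
      simp only [add_zero, mul_zero, Pi.neg_apply] at h4 h5
      rw [← hχ] at h4 h5
      rw [hd, mul_comm s] at h4
      have h6 : σ (χ₁ w₁) * (deriv χ₂ w₂ * s) = 0 := by linear_combination h4 / 2
      rw [h6] at h5
      norm_num at h5
  have hFd1 : ∀ h ∈ ball (0 : ℂ) ε, HasDerivAt (fun h => F (χ₁ (w₁ + h)))
      (σ (χ₁ (w₁ + h)) * deriv χ₁ (w₁ + h)) h := by
    intro h hh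
    exact (hF _ (hall h hh).2.1).comp h (hd1 h (hall h hh).1.1)
  have hFd2 : ∀ h ∈ ball (0 : ℂ) ε, HasDerivAt (fun h => F (χ₂ (w₂ + s * h)))
      (σ (χ₂ (w₂ + s * h)) * (deriv χ₂ (w₂ + s * h) * s)) h := by
    intro h hh
    exact (hF _ (hall h hh).2.2).comp h (hd2 h (hall h hh).1.2)
  intro h hh
  refine hinj (hall h hh).2.1 (hall h hh).2.2 ?_
  have hD : EqOn (fun h => F (χ₁ (w₁ + h))) (fun h => F (χ₂ (w₂ + s * h))) (ball 0 ε) := by
    refine isOpen_ball.eqOn_of_deriv_eq (convex_ball _ _).isPreconnected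
      (fun h hh => (hFd1 h hh).differentiableAt.differentiableWithinAt)
      (fun h hh => (hFd2 h hh).differentiableAt.differentiableWithinAt) ?_ h0 ?_
    · intro h hh
      rw [(hFd1 h hh).deriv, (hFd2 h hh).deriv]
      exact hq hh
    · simp only [add_zero, mul_zero]
      rw [hχ]
  exact hD hh

end MPS
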