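import Pool.Agent.helper36.MP.SpecP

/-!
# Project mp: P1A, structure of a Phase 1 system
-/

set_option autoImplicit false

open Complex Metric Set Filter Topology MeasureTheory

noncomputable section

namespace MPS

theorem P1A_mono {δ : ℝ} {n k : ℕ} [NeZero k] {c : ℂ} {b : ZMod k → ℂ} {ψ : ℂ → ℂ} {A : ℕ → ℝ}
    {G : ℕ → ℂ → ℂ} {Q : ℕ} (h : Sys1 n c b ψ δ A G Q) {q q' : ℕ} (hqq : q ≤ q') (hq : q' ≤ Q) :
    A q ≤ A q' := by
  induction q', hqq using Nat.le_induction with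
  | base => exact le_rfl
  | succ m hm ih => exact (ih (by omega)).trans (h.mono m (by omega))

theorem P1A_ball {a a' : ℝ} (h : a ≤ a') :
    ball (0 : ℂ) (Real.exp (-a')) ⊆ ball 0 (Real.exp (-a)) :=
  ball_subset_ball (Real.exp_le_exp.2 (by linarith))

theorem P1A_iter {δ : ℝ} {n k : ℕ} [NeZero k] {c : ℂ} {b : ZMod k → ℂ} {ψ : ℂ → ℂ} {A : ℕ → ℝ}
    {G : ℕ → ℂ → ℂ} {Q : ℕ} (h : Sys1 n c b ψ δ A G Q) (i j : ℕ) (hij : i + j ≤ Q) (u : ℂ)
    (hu : u ∈ ball (0 : ℂ) (Real.exp (-A (i + j)))) :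
    (fun z : ℂ => z ^ n + c)^[j] (G (i + j) u) = G i u := by
  induction j with
  | zero => rfl
  | succ j ih =>
    rw [Function.iterate_succ_apply]
    have h1 := (h.rel (i + j) (by omega) u hu).1
    show (fun z : ℂ => z ^ n + c)^[j] (G (i + j + 1) u ^ n + c) = G i u
    rw [h1]
    exact ih (by omega) (P1A_ball (P1A_mono h (by omega) hij) hu)

theorem P1A_restrict {k : ℕ} [NeZero k] {b g : ZMod k → ℂ} {χ : ℂ → ℂ} {Ω Ω' : Set ℂ}
    (h : IsNat b g χ Ω) (hs : Ω' ⊆ Ω) : IsNat b g χ Ω' :=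
  ⟨h.diff.mono hs, fun w hw => h.av w (hs hw), fun w hw => h.eq w (hs hw)⟩

theorem P1A (hNI : NI_stmt) (hTBD : TBD_stmt) (hNH : NH_stmt) : P1A_stmt := by
  intro n k _ c b g ψ R ε δ A G Q H
  have hsys := H.sys
  have hd0 := H.d0
  have hpn := (H.su.mx 0).pn
  have hA0 : ∀ q ≤ Q, 2 * δ ≤ A q := fun q hq => hsys.a0.trans (P1A_mono hsys (Nat.zero_le q) hq)
  have hsub : ∀ q ≤ Q, ball (0 : ℂ) (Real.exp (-A q)) ⊆ ball 0 (Real.exp (-δ)) := fun q hq =>
    P1A_ball (by linarith [hA0 q hq])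
  have hδ1 : ball (0 : ℂ) (Real.exp (-δ)) ⊆ ball 0 1 :=
    ball_subset_ball (Real.exp_le_one_iff.2 (by linarith))
  have hiter : ∀ q ≤ Q, ∀ u ∈ ball (0 : ℂ) (Real.exp (-A q)),
      (fun z : ℂ => z ^ n + c)^[q] (G q u) = ψ 0 u := by
    intro q hq u hu
    have h1 := P1A_iter hsys 0 q (by omega) u (by rwa [Nat.zero_add])
    rw [Nat.zero_add, hsys.g0] at h1
    exact h1
  have hiter2 : ∀ q q', q ≤ q' → q' ≤ Q → ∀ u ∈ ball (0 : ℂ) (Real.exp (-A q')),
      (fun z : ℂ => z ^ n + c)^[q] (G q' u) = G (q' - q) u := by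
    intro q q' hqq hq u hu
    have h1 : q' - q + q = q' := by omega
    have h2 := P1A_iter hsys (q' - q) q (by omega) u (by rwa [h1])
    rwa [h1] at h2
  have hdiff : ∀ q ≤ Q, DifferentiableOn ℂ (G q) (ball 0 (Real.exp (-A q))) := by
    intro q hq
    rcases Nat.eq_zero_or_pos q with rfl | h0
    · rw [hsys.g0]
      exact hpn.diff.mono ((hsub 0 hq).trans hδ1)
    · exact hsys.diff q h0 hq
  refine ⟨hdiff, ?_, ?_, ?_, ?_, ?_⟩
  · intro q hq u hu u' hu' huu
    refine hNI k b g 0 (ψ 0) 1 hpn (hδ1 (hsub q hq hu)) (hδ1 (hsub q hq hu')) ?_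
    rw [← hiter q hq u hu, ← hiter q hq u' hu', huu]
  · intro q
    induction q with
    | zero =>
      intro hq u hu
      rw [hsys.g0]
      exact H.mp (hsub 0 hq hu)
    | succ q ih =>
      intro hq u hu
      have h1 := ih (by omega) (P1A_ball (hsys.mono q (by omega)) hu)
      rw [mem_ball_zero_iff] at h1 ⊢
      rw [← (hsys.rel q (by omega) u hu).1] at h1
      exact (hTBD n c H.su.hn H.su.hc).2.1 R (G (q + 1) u) H.su.hR h1
  · intro q hq
    have hexp : ∀ j ≤ q, ∀ w ∈ HP (A q), Complex.exp w ∈ ball (0 : ℂ) (Real.exp (-A j)) := by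
      intro j hj w hw
      rw [mem_ball_zero_iff, Complex.norm_exp]
      refine Real.exp_lt_exp.2 ?_
      have h1 : w.re < -A q := hw
      have h2 := P1A_mono hsys hj hq
      linarith
    refine ⟨?_, ?_, ?_⟩
    · have h1 := (hNH k b g 0 (ψ 0) 1 hpn).1
      have h2 : GW G 0 = hat (ψ 0) := by
        funext w
        simp only [GW, hat, hsys.g0]
      rw [h2]
      refine P1A_restrict h1 ?_
      intro w hw
      have h3 : w.re < -A q := hw
      have h4 := hA0 q hq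
      show w.re < Real.log 1
      rw [Real.log_one]
      linarith
    · intro j hj
      have h1 : DifferentiableOn ℂ (fun w => G j (Complex.exp w)) (HP (A q)) :=
        (hdiff j (by omega)).comp Complex.differentiable_exp.differentiableOn (hexp j hj)
      exact h1
    · intro j hj w hw
      exact hsys.rel j (by omega) (Complex.exp w) (hexp (j + 1) (by omega) w hw)
  · intro q q' hqq hq'
    rw [Set.disjoint_left]
    rintro z ⟨u, hu, rfl⟩ ⟨u', hu', hz⟩
    have hu1 : u ∈ ball (0 : ℂ) (Real.exp (-A q)) :=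
      P1A_ball (P1A_mono hsys (by omega) (by omega)) hu
    have hu1' : u' ∈ ball (0 : ℂ) (Real.exp (-A q')) :=
      P1A_ball (P1A_mono hsys (by omega) (by omega)) hu'
    have h1 := hiter q (by omega) u hu1
    have h2 := hiter2 q q' (by omega) (by omega) u' hu1'
    rw [hz, h1] at h2
    refine Set.disjoint_left.1 (hsys.disj (q' - q) (by omega) (by omega))
      ⟨u', P1A_ball (P1A_mono hsys (by omega) (by omega)) hu', rfl⟩ ⟨u, hsub q (by omega) hu1, h2⟩
  · intro a ha hdis q q' hqq hq'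
    rw [Set.disjoint_left]
    rintro z ⟨u, hu, rfl⟩ ⟨u', hu', hz⟩
    have hb : ∀ j ≤ Q, ball (0 : ℂ) (Real.exp (-a)) ⊆ ball 0 (Real.exp (-A j)) := fun j hj =>
      P1A_ball ((P1A_mono hsys hj le_rfl).trans ha)
    have h1 := hiter q (by omega) u (hb q (by omega) hu)
    have h2 := hiter2 q q' (by omega) (by omega) u' (hb q' hq' hu')
    rw [hz, h1] at h2
    by_cases hp : q' - q < Q
    · refine Set.disjoint_left.1 (hsys.disj (q' - q) (by omega) hp)
        ⟨u', hb _ (by omega) hu', rfl⟩ ⟨u, hsub q (by omega) (hb q (by omega) hu), h2⟩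
    · have h3 : q' - q = Q := by omega
      rw [h3] at h2
      exact Set.disjoint_left.1 (hdis (by omega)) ⟨u', hu', rfl⟩
        ⟨u, hsub q (by omega) (hb q (by omega) hu), h2⟩

end MPS
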